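import Pool.Agent.helper67.RG.Spec

/-! Row rg:STR: assembly of LZF, RAD, SPL. -/

set_option autoImplicit false
set_option linter.dupNamespace false

namespace Pool.Agent.RG.STR

open Matrix Pool.Agent.GO Pool.Agent.AR Pool.Agent.RG

attribute [local instance 100] LieRing.ofAssociativeRing

universe uF uG uA

section aux

variable {F : Type uF} [Field F] [CharZero F]

/-- The projection onto the matrices of trace zero. -/
noncomputable def pr : Matrix (Fin 2) (Fin 2) F →ₗ[F] Matrix (Fin 2) (Fin 2) F where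
  toFun Z := Z - (Z.trace / 2) • (1 : Matrix (Fin 2) (Fin 2) F)
  map_add' Z Z' := by
    rw [Matrix.trace_add, add_div, add_smul]
    abel
  map_smul' c Z := by
    rw [Matrix.trace_smul, smul_eq_mul, mul_div_assoc, RingHom.id_apply, smul_sub, smul_smul]

omit [CharZero F] in
lemma pr_apply (Z : Matrix (Fin 2) (Fin 2) F) :
    pr Z = Z - (Z.trace / 2) • (1 : Matrix (Fin 2) (Fin 2) F) := rfl

lemma pr_trace (Z : Matrix (Fin 2) (Fin 2) F) : (pr Z).trace = 0 := by
  rw [pr_apply, Matrix.trace_sub, Matrix.trace_smul, Matrix.trace_one, smul_eq_mul]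
  simp

omit [CharZero F] in
lemma pr_of_trace {Z : Matrix (Fin 2) (Fin 2) F} (h : Z.trace = 0) : pr Z = Z := by
  rw [pr_apply, h]
  simp

lemma pr_one : pr (1 : Matrix (Fin 2) (Fin 2) F) = 0 := by
  rw [pr_apply, Matrix.trace_one]
  simp

omit [CharZero F] in
lemma comm_trace (Z Z' : Matrix (Fin 2) (Fin 2) F) : (Z * Z' - Z' * Z).trace = 0 := by
  rw [Matrix.trace_sub, Matrix.trace_mul_comm, sub_self]

omit [CharZero F] in
lemma pr_comm (Z Z' : Matrix (Fin 2) (Fin 2) F) :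
    pr Z * pr Z' - pr Z' * pr Z = Z * Z' - Z' * Z := by
  simp only [pr_apply, sub_mul, mul_sub, Matrix.smul_mul, Matrix.mul_smul, one_mul, mul_one]
  rw [smul_comm (Z.trace / 2) (Z'.trace / 2)]
  abel

end aux

theorem STR (hLZF : LZF_stmt.{uF, uG, uA}) (hRAD : RAD_stmt.{uF, uG, uA})
    (hSPL : SPL_stmt.{uF, uA, uF}) : STR_stmt.{uF, uG, uA} := by
  intro F Γ A _ _ _ _ _ _ _ u N d W θ hd hinj hu hW τ hτ hτtr ρ hρ L hL
  obtain ⟨L₀, π, h1, h2, h3, h4, h5⟩ := hLZF u ρ hρ τ hτ L hL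
  have hrad : LieAlgebra.HasTrivialRadical F L₀ :=
    hRAD u W θ hd hinj hu hW L₀ h3 fun x hx i => hτtr x (h1 x hx) i
  obtain ⟨σ₀, hσ1, hσ2⟩ := hSPL (F := F) (L := L₀) (Q := Matrix (Fin 2) (Fin 2) F) π
  have hmem : ∀ Z : Matrix (Fin 2) (Fin 2) F, pr Z ∈ π.range := by
    intro Z
    rw [LieHom.mem_range]
    exact (h2 (pr Z)).1 (pr_trace Z)
  let p0 : Matrix (Fin 2) (Fin 2) F →ₗ[F] π.range :=
    LinearMap.codRestrict π.range.toSubmodule pr hmem
  have hp0 : ∀ Z, ((p0 Z : π.range) : Matrix (Fin 2) (Fin 2) F) = pr Z := fun Z => rfl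
  let σ : Matrix (Fin 2) (Fin 2) F →ₗ[F] A :=
    L₀.toSubmodule.subtype ∘ₗ (σ₀ : π.range →ₗ[F] L₀) ∘ₗ p0
  have hσ : ∀ Z, σ Z = ((σ₀ (p0 Z) : L₀) : A) := fun Z => rfl
  have hlie : ∀ Z Z', σ (Z * Z' - Z' * Z) = σ Z * σ Z' - σ Z' * σ Z := by
    intro Z Z'
    have e1 : p0 (Z * Z' - Z' * Z) = ⁅p0 Z, p0 Z'⁆ := by
      apply Subtype.ext
      rw [LieSubalgebra.coe_bracket, LieRing.of_associative_ring_bracket, hp0, hp0, hp0, pr_comm,
        pr_of_trace (comm_trace Z Z')]
    rw [hσ, e1, LieHom.map_lie, LieSubalgebra.coe_bracket, LieRing.of_associative_ring_bracket,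
      ← hσ, ← hσ]
  refine ⟨σ, ⟨?_, hlie⟩, ?_, ?_⟩
  · rw [hσ]
    have : p0 1 = 0 := Subtype.ext pr_one
    rw [this, map_zero]
    rfl
  · intro g Z
    have hug : u g * u g⁻¹ = 1 := by rw [← map_mul, mul_inv_cancel, map_one]
    have hug' : u g⁻¹ * u g = 1 := by rw [← map_mul, inv_mul_cancel, map_one]
    have hρg : ρ g * ρ g⁻¹ = 1 := by rw [← map_mul, mul_inv_cancel, map_one]
    have hρg' : ρ g⁻¹ * ρ g = 1 := by rw [← map_mul, inv_mul_cancel, map_one]
    let a : L₀ ≃ₗ⁅F⁆ L₀ :=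
      { toFun := fun x => ⟨u g * x.1 * u g⁻¹, h3 g x.1 x.2⟩
        map_add' := fun x y => by
          apply Subtype.ext
          change u g * (x.1 + y.1) * u g⁻¹ = u g * x.1 * u g⁻¹ + u g * y.1 * u g⁻¹
          rw [mul_add, add_mul]
        map_smul' := fun c x => by
          apply Subtype.ext
          change u g * (c • x.1) * u g⁻¹ = c • (u g * x.1 * u g⁻¹)
          rw [mul_smul_comm, smul_mul_assoc]
        map_lie' := fun {x y} => by
          apply Subtype.ext
          change u g * (x.1 * y.1 - y.1 * x.1) * u g⁻¹ =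
            (u g * x.1 * u g⁻¹) * (u g * y.1 * u g⁻¹) - (u g * y.1 * u g⁻¹) * (u g * x.1 * u g⁻¹)
          have e : ∀ s t : A, (u g * s * u g⁻¹) * (u g * t * u g⁻¹) = u g * (s * t) * u g⁻¹ := by
            intro s t
            calc (u g * s * u g⁻¹) * (u g * t * u g⁻¹) = u g * s * (u g⁻¹ * u g) * t * u g⁻¹ := by
                  simp only [mul_assoc]
              _ = u g * (s * t) * u g⁻¹ := by rw [hug', mul_one]; simp only [mul_assoc]
          rw [e, e, mul_sub, sub_mul]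
        invFun := fun x => ⟨u g⁻¹ * x.1 * u g, by
          have := h3 g⁻¹ x.1 x.2
          rwa [inv_inv] at this⟩
        left_inv := fun x => by
          apply Subtype.ext
          change u g⁻¹ * (u g * x.1 * u g⁻¹) * u g = x.1
          calc u g⁻¹ * (u g * x.1 * u g⁻¹) * u g = (u g⁻¹ * u g) * x.1 * (u g⁻¹ * u g) := by
                simp only [mul_assoc]
            _ = x.1 := by rw [hug', one_mul, mul_one]
        right_inv := fun x => by
          apply Subtype.ext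
          change u g * (u g⁻¹ * x.1 * u g) * u g⁻¹ = x.1
          calc u g * (u g⁻¹ * x.1 * u g) * u g⁻¹ = (u g * u g⁻¹) * x.1 * (u g * u g⁻¹) := by
                simp only [mul_assoc]
            _ = x.1 := by rw [hug, one_mul, mul_one] }
    have ha : ∀ x : L₀, (a x).1 = u g * x.1 * u g⁻¹ := fun x => rfl
    have hπa : ∀ x : L₀, π (a x) = ρ g * π x * ρ g⁻¹ := fun x => h4 g x (a x) (ha x)
    have hpr : ρ g * pr Z * ρ g⁻¹ = pr (ρ g * Z * ρ g⁻¹) := by
      have ht : (ρ g * Z * ρ g⁻¹).trace = Z.trace := by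
        rw [Matrix.trace_mul_comm, ← Matrix.mul_assoc, hρg', Matrix.one_mul]
      rw [pr_apply, pr_apply, ht, mul_sub, sub_mul, Matrix.mul_smul, Matrix.smul_mul, Matrix.mul_one,
        hρg]
    have key := hσ2 a (fun x hx => by rw [hπa, hx, mul_zero, zero_mul]) (p0 Z)
      (p0 (ρ g * Z * ρ g⁻¹)) (by rw [hπa, hσ1, hp0, hp0, hpr])
    rw [hσ, hσ, ← key, ha]
  · -- the last clause
    have hstep : ∀ Z : Matrix (Fin 2) (Fin 2) F, Z.trace = 0 →
        ∃ (b : A) (c : F), (σ Z + τ b, Z + c • (1 : Matrix (Fin 2) (Fin 2) F)) ∈ L := by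
      intro Z hZ
      obtain ⟨b, c, hbc⟩ := h5 (σ₀ (p0 Z))
      refine ⟨b, c, ?_⟩
      rw [hσ1, hp0, pr_of_trace hZ] at hbc
      exact hbc
    have hcomm : ∀ Z Z' : Matrix (Fin 2) (Fin 2) F, Z.trace = 0 → Z'.trace = 0 →
        (σ (Z * Z' - Z' * Z), Z * Z' - Z' * Z) ∈ L := by
      intro Z Z' hZ hZ'
      obtain ⟨b, c, hbc⟩ := hstep Z hZ
      obtain ⟨b', c', hbc'⟩ := hstep Z' hZ'
      have h := hL.lie _ hbc _ hbc'
      have e : ((σ Z + τ b, Z + c • (1 : Matrix (Fin 2) (Fin 2) F)) *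
          (σ Z' + τ b', Z' + c' • (1 : Matrix (Fin 2) (Fin 2) F)) -
          (σ Z' + τ b', Z' + c' • (1 : Matrix (Fin 2) (Fin 2) F)) *
          (σ Z + τ b, Z + c • (1 : Matrix (Fin 2) (Fin 2) F)) :
            A × Matrix (Fin 2) (Fin 2) F) = (σ (Z * Z' - Z' * Z), Z * Z' - Z' * Z) := by
        refine Prod.ext ?_ ?_
        · change (σ Z + τ b) * (σ Z' + τ b') - (σ Z' + τ b') * (σ Z + τ b) = _
          rw [hlie, add_mul, mul_add, mul_add, add_mul, mul_add, mul_add, hτ.central b (σ Z'),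
            hτ.central b (τ b'), hτ.central b' (σ Z)]
          abel
        · change (Z + c • (1 : Matrix (Fin 2) (Fin 2) F)) * (Z' + c' • 1) -
            (Z' + c' • (1 : Matrix (Fin 2) (Fin 2) F)) * (Z + c • 1) = _
          simp only [add_mul, mul_add, Matrix.smul_mul, Matrix.mul_smul, one_mul, mul_one]
          rw [smul_comm c c']
          abel
      rw [e] at h
      exact h
    let ψ : Matrix (Fin 2) (Fin 2) F →ₗ[F] A × Matrix (Fin 2) (Fin 2) F :=
      LinearMap.prod σ LinearMap.id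
    have hψ : ∀ Z, ψ Z = (σ Z, Z) := fun Z => rfl
    intro Z hZ
    let e : Matrix (Fin 2) (Fin 2) F := !![0, 1; 0, 0]
    let f : Matrix (Fin 2) (Fin 2) F := !![0, 0; 1, 0]
    let k : Matrix (Fin 2) (Fin 2) F := !![1, 0; 0, -1]
    have he : e.trace = 0 := by simp [e, Matrix.trace_fin_two]
    have hf : f.trace = 0 := by simp [f, Matrix.trace_fin_two]
    have hk : k.trace = 0 := by simp [k, Matrix.trace_fin_two]
    have hdec : Z = (Z 0 0) • (e * f - f * e) + (Z 0 1 / 2) • (k * e - e * k) +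
        (-(Z 1 0 / 2)) • (k * f - f * k) := by
      have h11 : Z 1 1 = -(Z 0 0) := by
        rw [Matrix.trace_fin_two] at hZ
        linear_combination hZ
      ext i j
      fin_cases i <;> fin_cases j <;> simp [e, f, k, h11] <;>
        ring
    have hL' : ψ Z ∈ L := by
      rw [hdec, map_add, map_add, map_smul, map_smul, map_smul]
      refine L.add_mem (L.add_mem (L.smul_mem _ ?_) (L.smul_mem _ ?_)) (L.smul_mem _ ?_)
      · rw [hψ]; exact hcomm e f he hf
      · rw [hψ]; exact hcomm k e hk he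
      · rw [hψ]; exact hcomm k f hk hf
    exact hL'

end Pool.Agent.RG.STR
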